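import Mathlib
set_option autoImplicit false

/-!
Finite free chain complexes over a group algebra, twisted duality and crossed homomorphisms.
-/

open Matrix

namespace Pool.Agent.Helper35.SH

/-- The `R`-algebra endomorphism `g ↦ w(g) g` of `R[G]`, for a character `w : G → {1,-1}`. -/
noncomputable def twist (R : Type) [CommRing R] {G : Type} [Group G] (w : G →* ℤˣ) :
    MonoidAlgebra R G →ₐ[R] MonoidAlgebra R G :=
  MonoidAlgebra.lift R (MonoidAlgebra R G) G
    { toFun := fun g => MonoidAlgebra.single g (((w g : ℤ) : R))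
      map_one' := by
        rw [map_one, Units.val_one, Int.cast_one]
        rfl
      map_mul' := fun g h => by
        rw [MonoidAlgebra.single_mul_single, map_mul, Units.val_mul, Int.cast_mul] }

/-- The dual matrix over the group algebra `R[G]`: transpose the matrix and apply the involution
`g ↦ w(g) g⁻¹` to the entries. -/
noncomputable def dual {R : Type} [CommRing R] {G : Type} [Group G] (w : G →* ℤˣ) {a b : Type}
    (D : Matrix b a (MonoidAlgebra R G)) : Matrix a b (MonoidAlgebra R G) :=
  fun j i => HopfAlgebra.antipode R (twist R w (D i j))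

/-- `IsStart D₁ D₂`: the sequence of left `R[G]`-modules and homomorphisms
`R[G]^c → R[G]^b → R[G]^a → R → 0` given by right multiplication of row vectors by `D₂`, by `D₁`,
and by a homomorphism onto the trivial module `R` (which maps the `j`-th basis vector to `t j`),
is exact. -/
def IsStart {R : Type} [CommRing R] {G : Type} [Group G] {a b c : Type} [Fintype a] [Fintype b]
    [Fintype c] (D₁ : Matrix b a (MonoidAlgebra R G)) (D₂ : Matrix c b (MonoidAlgebra R G)) :
    Prop :=
  (∃ t : a → R,
    (∃ v : a → MonoidAlgebra R G, ∑ j, t j * Coalgebra.counit (v j) = 1) ∧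
    ∀ v : a → MonoidAlgebra R G,
      ∑ j, t j * Coalgebra.counit (v j) = 0 ↔ ∃ w : b → MonoidAlgebra R G, w ᵥ* D₁ = v) ∧
  ∀ w : b → MonoidAlgebra R G, w ᵥ* D₁ = 0 ↔ ∃ u : c → MonoidAlgebra R G, u ᵥ* D₂ = w

/-- The crossed homomorphisms (1-cocycles) `c : G → F^ι`, `c (g h) = c g + ρ(g) c h`, of a matrix
representation `ρ`. -/
def Z1 {G : Type} [Group G] {F : Type} [Field F] {ι : Type} [Fintype ι] [DecidableEq ι]
    (ρ : G →* Matrix ι ι F) : Submodule F (G → ι → F) where
  carrier := {c | ∀ g h, c (g * h) = c g + ρ g *ᵥ c h}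
  add_mem' := by
    intro c c' hc hc' g h
    simp only [Pi.add_apply, hc g h, hc' g h, Matrix.mulVec_add]
    abel
  zero_mem' := by
    intro g h
    simp
  smul_mem' := by
    intro x c hc g h
    simp only [Pi.smul_apply, hc g h, Matrix.mulVec_smul, smul_add]

/-- The dual representation twisted by the character `w`: `g ↦ w(g) ρ(g⁻¹)ᵀ`. -/
def contra {G : Type} [Group G] {F : Type} [Field F] {ι : Type} [Fintype ι] [DecidableEq ι]
    (w : G →* ℤˣ) (ρ : G →* Matrix ι ι F) : G →* Matrix ι ι F where
  toFun g := (((w g : ℤ) : F)) • (ρ g⁻¹)ᵀ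
  map_one' := by simp
  map_mul' g h := by
    rw [_root_.mul_inv_rev, map_mul, map_mul, Matrix.transpose_mul, Units.val_mul, Int.cast_mul,
      Matrix.smul_mul, Matrix.mul_smul, smul_smul]

end Pool.Agent.Helper35.SH
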