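import Pool.Agent.Helper35.SH.How
set_option autoImplicit false

/-!
Largeness from crossed homomorphisms supported away from a window: the main construction.
-/

open Multiplicative

namespace Pool.Agent.Helper35.SH

theorem large_of_crossed {G : Type} [Group G] [Group.IsFinitelyPresented G]
    (φ : G →* Multiplicative ℤ) (t : G) (ht : φ t = ofAdd 1)
    (H : ∀ (S : Finset G) (N : ℕ), ∃ m : ℕ, 0 < m ∧ ∃ c : G → ZMod m → ℚ,
      (∀ g h p, c (g * h) p = c g p + c h (p + ((φ g).toAdd : ℤ))) ∧ (∀ p, c t p = 0) ∧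
      (∃ g p, c g p ≠ 0) ∧ ∀ s ∈ S, ∀ i : ℕ, i < N → c s (i : ZMod m) = 0) :
    ∃ K : Subgroup G, K.FiniteIndex ∧ ∃ f : K →* FreeGroup (Fin 2), Function.Surjective f := by
  classical
  obtain ⟨n, π, hπ, R, hR, hRπ⟩ := Group.IsFinitelyPresented.out (G := G)
  obtain ⟨tw, htw⟩ := hπ t
  let γ : Option (Fin n) → G := fun o => o.elim t (fun i => π (FreeGroup.of i))
  let j : FreeGroup (Fin n) →* FreeGroup (Option (Fin n)) := FreeGroup.map some
  have hγ : ∀ w, FreeGroup.lift γ (j w) = π w := by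
    intro w
    have : (FreeGroup.lift γ).comp j = π := by
      ext i
      simp [j, γ]
    exact DFunLike.congr_fun this w
  let R' : Set (FreeGroup (Option (Fin n))) := insert (FreeGroup.of none * (j tw)⁻¹) (j '' R)
  have hR' : R'.Finite := (hR.image _).insert _
  have hR'1 : ∀ r ∈ R', FreeGroup.lift γ r = 1 := by
    rintro r (rfl | ⟨r, hr, rfl⟩)
    · rw [map_mul, map_inv, hγ, htw, FreeGroup.lift_apply_of]
      exact mul_inv_cancel t
    · rw [hγ]
      have : r ∈ π.ker := by
        rw [← hRπ]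
        exact Subgroup.subset_normalClosure hr
      exact this
  let nx : Option (Fin n) → ℤ := fun x => (φ (γ x)).toAdd
  let M : ℕ := ∑ x, (nx x).natAbs
  have hM : ∀ x, |nx x| ≤ M := by
    intro x
    rw [Int.abs_eq_natAbs]
    exact_mod_cast Finset.single_le_sum (f := fun x => (nx x).natAbs)
      (fun _ _ => Nat.zero_le _) (Finset.mem_univ x)
  obtain ⟨ℓ, hℓ⟩ : ∃ ℓ : ℕ, ∀ r ∈ R', r.toWord.length ≤ ℓ := by
    obtain ⟨ℓ, hℓ⟩ := (hR'.image fun r => r.toWord.length).bddAbove
    exact ⟨ℓ, fun r hr => hℓ ⟨r, hr, rfl⟩⟩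
  let B : ℕ := M * ℓ
  obtain ⟨m, hm, c, hc, hct, ⟨g₀, q₀, hg₀⟩, hcS⟩ :=
    H (Finset.univ.image fun i => π (FreeGroup.of i)) (2 * B + 1)
  have : NeZero m := ⟨hm.ne'⟩
  have hmZ : (0 : ℤ) < m := by exact_mod_cast hm
  have hc1 : ∀ p, c 1 p = 0 := by
    intro p
    have := hc 1 1 p
    rw [map_one, toAdd_one, Int.cast_zero, add_zero, mul_one] at this
    exact left_eq_add.1 this
  have hcinv : ∀ g p, c g⁻¹ p = - c g (p - ((φ g).toAdd : ℤ)) := by
    intro g p
    have := hc g⁻¹ g p
    rw [inv_mul_cancel, hc1, map_inv, toAdd_inv, Int.cast_neg, ← sub_eq_add_neg] at this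
    linarith
  -- normalisation
  obtain ⟨u, hu⟩ := closure_rat (Set.finite_range fun x : Fin n × ZMod m =>
    c (π (FreeGroup.of x.1)) x.2)
  have hgen : ¬ ∀ i p, c (π (FreeGroup.of i)) p = 0 := by
    intro h0
    apply hg₀
    obtain ⟨w, rfl⟩ := hπ g₀
    have : ∀ w : FreeGroup (Fin n), ∀ p, c (π w) p = 0 := by
      intro w
      induction w using FreeGroup.induction_on with
      | C1 => intro p; rw [map_one]; exact hc1 p
      | of i => exact h0 i
      | inv_of i _ => intro p; rw [map_inv, hcinv, h0, neg_zero]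
      | mul x y hx hy => intro p; rw [map_mul, hc, hx, hy, add_zero]
    exact this w q₀
  have hmem : ∀ i p, ∃ z : ℤ, (z : ℚ) * u = c (π (FreeGroup.of i)) p := by
    intro i p
    have h1 : c (π (FreeGroup.of i)) p ∈ AddSubgroup.zmultiples u := by
      rw [← hu]
      exact AddSubgroup.subset_closure ⟨(i, p), rfl⟩
    obtain ⟨z, hz⟩ := AddSubgroup.mem_zmultiples_iff.1 h1
    exact ⟨z, by rw [← hz, zsmul_eq_mul]⟩
  choose Y hY using hmem
  have hu0 : u ≠ 0 := by
    rintro rfl
    exact hgen fun i p => by rw [← hY, mul_zero]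
  have hY1 : (1 : ℤ) ∈ AddSubgroup.closure (Set.range fun x : Fin n × ZMod m => Y x.1 x.2) := by
    let h : ℤ →+ ℚ := (zmultiplesHom ℚ) u
    have hh : ∀ z, h z = (z : ℚ) * u := fun z => by
      simp [h]
    have h1 : (AddSubgroup.closure (Set.range fun x : Fin n × ZMod m => Y x.1 x.2)).map h =
        AddSubgroup.zmultiples u := by
      rw [AddMonoidHom.map_closure, ← hu, ← Set.range_comp]
      congr 2
      funext x
      rw [Function.comp_apply, hh, hY]
    have h2 : u ∈ (AddSubgroup.closure (Set.range fun x : Fin n × ZMod m => Y x.1 x.2)).map h := by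
      rw [h1]
      exact AddSubgroup.mem_zmultiples u
    obtain ⟨z, hz, hzu⟩ := h2
    have h3 : (z : ℚ) = 1 := by
      rw [hh] at hzu
      have : ((z : ℚ) - 1) * u = 0 := by rw [sub_mul, hzu, one_mul, sub_self]
      rcases mul_eq_zero.1 this with h | h
      · linarith
      · exact absurd h hu0
    have h4 : z = 1 := by exact_mod_cast h3
    rwa [← h4]
  let y : Option (Fin n) → ℤ → ℤ := fun x p => x.elim 0 (fun i => Y i (p : ZMod m))
  have hy : ∀ x (p : ℤ), (y x p : ℚ) * u = c (γ x) (p : ZMod m) := by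
    rintro (_ | i) p
    · simp [y, γ, hct]
    · exact hY i p
  have hexpo : ∀ (L : List (Option (Fin n) × Bool)) (p : ℤ),
      (expo nx y L p : ℚ) * u = c (FreeGroup.lift γ (FreeGroup.mk L)) (p : ZMod m) := by
    intro L
    induction L with
    | nil =>
      intro p
      rw [FreeGroup.lift_mk]
      simp [expo, hc1]
    | cons a L ih =>
      intro p
      obtain ⟨x, b⟩ := a
      rw [FreeGroup.lift_mk, List.map_cons, List.prod_cons, ← FreeGroup.lift_mk]
      cases b with
      | true =>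
        show _ = c (γ x * _) _
        rw [hc, ← hy, expo]
        push_cast
        rw [add_mul, ih]
        push_cast
        rfl
      | false =>
        show _ = c ((γ x)⁻¹ * _) _
        rw [hc, hcinv, map_inv, toAdd_inv, expo]
        push_cast
        rw [add_mul, ih, neg_mul, hy]
        push_cast
        rw [← sub_eq_add_neg]
  -- the wreath product representation
  let T : FreeGroup (Fin 2) := FreeGroup.of 0
  let C : FreeGroup (Fin 2) := FreeGroup.of 1
  let Φ₀ : Option (Fin n) → Wr (FreeGroup (Fin 2)) := fun x =>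
    ⟨fun p => T ^ (p / (m : ℤ)) * C ^ (y x p) * (T ^ (p / (m : ℤ)))⁻¹, ofAdd (nx x)⟩
  have hΦl : ∀ x p, (Φ₀ x).left p =
      T ^ (p / (m : ℤ)) * C ^ (y x p) * (T ^ (p / (m : ℤ)))⁻¹ := fun _ _ => rfl
  have hΦr : ∀ x, (Φ₀ x).right = ofAdd (nx x) := fun _ => rfl
  -- the gap condition
  have hgap : ∀ x (p : ℤ), y x p ≠ 0 → (2 * B + 1 : ℤ) ≤ p % m := by
    intro x p hp
    by_contra hlt
    rw [not_le] at hlt
    apply hp
    have hnn : 0 ≤ p % (m : ℤ) := Int.emod_nonneg _ hmZ.ne'
    obtain ⟨i, hi⟩ := Int.eq_ofNat_of_zero_le hnn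
    have hiN : i < 2 * B + 1 := by
      rw [hi] at hlt
      exact_mod_cast hlt
    have hcast : (p : ZMod m) = (i : ZMod m) := by
      have h1 : ((p % (m : ℤ) : ℤ) : ZMod m) = (p : ZMod m) := by
        rw [ZMod.intCast_mod]
      rw [← h1, hi]
      simp
    have h2 := hy x p
    rcases x with _ | x
    · rfl
    · rw [hcast] at h2
      have h3 : c (γ (some x)) (i : ZMod m) = 0 :=
        hcS _ (Finset.mem_image.2 ⟨x, Finset.mem_univ _, rfl⟩) i hiN
      rw [h3] at h2
      rcases mul_eq_zero.1 h2 with h | h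
      · exact_mod_cast h
      · exact absurd h hu0
  have hgap2 : ∀ x x' (p q : ℤ), y x p ≠ 0 → y x' q ≠ 0 → p / (m : ℤ) < q / (m : ℤ) →
      2 * (B : ℤ) < q - p := by
    intro x x' p q _ hq hpq
    have h1 := hgap x' q hq
    have h2 := Int.emod_add_mul_ediv q m
    have h3 := Int.emod_add_mul_ediv p m
    have h4 : p % (m : ℤ) < m := Int.emod_lt_of_pos _ hmZ
    have h5 : (m : ℤ) * (p / m + 1) ≤ m * (q / m) :=
      mul_le_mul_of_nonneg_left (by omega) hmZ.le
    rw [mul_add, mul_one] at h5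
    linarith
  have hwin : ∀ p : ℤ, ∃ k : ℤ, ∀ x, ∀ q ∈ {q : ℤ | |q - p| ≤ (B : ℤ)},
      (Φ₀ x).left q = T ^ k * C ^ (y x q) * (T ^ k)⁻¹ := by
    intro p
    by_cases hex : ∃ x, ∃ q : ℤ, |q - p| ≤ (B : ℤ) ∧ y x q ≠ 0
    · obtain ⟨x₁, q₁, hq₁, hy₁⟩ := hex
      refine ⟨q₁ / m, fun x q hq => ?_⟩
      have hq' : |q - p| ≤ (B : ℤ) := hq
      rw [hΦl]
      by_cases h0 : y x q = 0
      · rw [h0]
        group
      · have h1 := abs_le.1 hq'
        have h2 := abs_le.1 hq₁
        have h3 : q / (m : ℤ) = q₁ / (m : ℤ) := by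
          rcases lt_trichotomy (q / (m : ℤ)) (q₁ / (m : ℤ)) with h | h | h
          · have := hgap2 x x₁ q q₁ h0 hy₁ h
            linarith [h1.1, h1.2, h2.1, h2.2]
          · exact h
          · have := hgap2 x₁ x q₁ q hy₁ h0 h
            linarith [h1.1, h1.2, h2.1, h2.2]
        rw [h3]
    · refine ⟨0, fun x q hq => ?_⟩
      have h0 : y x q = 0 := by
        by_contra h0
        exact hex ⟨x, q, hq, h0⟩
      rw [hΦl, h0]
      group
  -- the relators are killed
  have hright : ∀ w, (FreeGroup.lift Φ₀ w).right = φ (FreeGroup.lift γ w) := by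
    intro w
    have : (SemidirectProduct.rightHom : Wr (FreeGroup (Fin 2)) →* Multiplicative ℤ).comp
        (FreeGroup.lift Φ₀) = φ.comp (FreeGroup.lift γ) := by
      ext x
      simp [nx, hΦr]
    exact DFunLike.congr_fun this w
  have hkill : ∀ r ∈ R', FreeGroup.lift Φ₀ r = 1 := by
    intro r hr
    refine SemidirectProduct.ext ?_ ?_
    · funext p
      obtain ⟨k, hk⟩ := hwin p
      have hstay : Stay nx {q : ℤ | |q - p| ≤ (B : ℤ)} r.toWord p := by
        refine stay_ball nx M hM p B r.toWord p ?_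
        rw [sub_self, abs_zero, zero_add]
        have := hℓ r hr
        have h3 : M * r.toWord.length ≤ M * ℓ := Nat.mul_le_mul_left _ this
        exact_mod_cast h3
      have h1 := left_of_stay nx y T C Φ₀ hΦr _ k hk r.toWord p hstay
      rw [FreeGroup.mk_toWord] at h1
      have h2 := hexpo r.toWord p
      rw [FreeGroup.mk_toWord, hR'1 r hr, hc1] at h2
      have h3 : expo nx y r.toWord p = 0 := by
        rcases mul_eq_zero.1 h2 with h | h
        · exact_mod_cast h
        · exact absurd h hu0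
      rw [h1, h3]
      show T ^ k * C ^ (0 : ℤ) * (T ^ k)⁻¹ = 1
      group
    · rw [hright, hR'1 r hr, map_one]
      rfl
  -- descend to the group
  have hker : π.ker ≤ ((FreeGroup.lift Φ₀).comp j).ker := by
    rw [← hRπ]
    refine Subgroup.normalClosure_le_normal ?_
    intro r hr
    exact hkill _ (Or.inr ⟨r, hr, rfl⟩)
  let Φ : G →* Wr (FreeGroup (Fin 2)) := π.liftOfSurjective hπ ⟨_, hker⟩
  have hΦ : ∀ w, Φ (π w) = FreeGroup.lift Φ₀ (j w) := fun w =>
    π.liftOfRightInverse_comp_apply _ _ ⟨_, hker⟩ w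
  have hΦt : Φ t = SemidirectProduct.inr (ofAdd (1 : ℤ)) := by
    have h1 := hkill _ (Or.inl rfl : FreeGroup.of none * (j tw)⁻¹ ∈ R')
    rw [map_mul, map_inv, mul_inv_eq_one, FreeGroup.lift_apply_of] at h1
    rw [← htw, hΦ, ← h1]
    refine SemidirectProduct.ext ?_ ?_
    · funext p
      show T ^ (p / (m : ℤ)) * C ^ (0 : ℤ) * (T ^ (p / (m : ℤ)))⁻¹ = 1
      group
    · show ofAdd (φ t).toAdd = ofAdd 1
      rw [ht]
      rfl
  have hΦright : ∀ g, (Φ g).right = φ g := by
    intro g
    obtain ⟨w, rfl⟩ := hπ g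
    rw [hΦ, hright, hγ]
  have hequi : ∀ g, Φ g ∈ equi (m : ℤ) T := by
    intro g
    obtain ⟨w, rfl⟩ := hπ g
    rw [hΦ]
    have : ∀ w, FreeGroup.lift Φ₀ w ∈ equi (m : ℤ) T := by
      intro w
      induction w using FreeGroup.induction_on with
      | C1 => rw [map_one]; exact Subgroup.one_mem _
      | of x =>
        rw [FreeGroup.lift_apply_of]
        intro p
        have h1 : (p + m) / (m : ℤ) = 1 + p / m := by
          rw [add_comm p, Int.add_ediv_of_dvd_left (dvd_refl _), Int.ediv_self hmZ.ne']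
        have h2 : y x (p + m) = y x p := by
          rcases x with _ | x
          · rfl
          · show Y x ((p + m : ℤ) : ZMod m) = Y x (p : ZMod m)
            congr 1
            push_cast
            simp
        rw [hΦl, hΦl, h1, h2, zpow_add, zpow_one]
        group
      | inv_of x hx => rw [map_inv]; exact Subgroup.inv_mem _ hx
      | mul x y hx hy => rw [map_mul]; exact Subgroup.mul_mem _ hx hy
    exact this _
  -- the finite index subgroup
  let ψ : G →* Multiplicative (ZMod m) := (Int.castAddHom (ZMod m)).toMultiplicative.comp φ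
  have hψ : ∀ g, g ∈ ψ.ker → ∃ k : ℤ, (φ g).toAdd = k * m := by
    intro g hg
    have h1 : (((φ g).toAdd : ℤ) : ZMod m) = 0 := by
      have : ψ g = 1 := hg
      exact this
    obtain ⟨k, hk⟩ := (ZMod.intCast_zmod_eq_zero_iff_dvd _ _).1 h1
    exact ⟨k, by rw [hk, mul_comm]⟩
  have hψ' : ∀ g (k : ℤ), (φ g).toAdd = k * m → g ∈ ψ.ker := by
    intro g k hk
    have h1 : (((φ g).toAdd : ℤ) : ZMod m) = 0 := by
      rw [hk]
      push_cast
      simp
    exact h1
  let f : ψ.ker →* FreeGroup (Fin 2) :=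
    { toFun := fun g => (Φ g).left 0 * T ^ ((φ g).toAdd / (m : ℤ))
      map_one' := by
        rw [Subgroup.coe_one, map_one, map_one, toAdd_one, Int.zero_ediv, zpow_zero, mul_one]
        rfl
      map_mul' := by
        intro g h
        obtain ⟨k, hk⟩ := hψ g g.2
        obtain ⟨l, hl⟩ := hψ h h.2
        rw [Subgroup.coe_mul, map_mul, map_mul, toAdd_mul, left_mul, hΦright, hk, hl,
          equi_iter (hequi h), ← add_mul, Int.mul_ediv_cancel _ hmZ.ne',
          Int.mul_ediv_cancel _ hmZ.ne', Int.mul_ediv_cancel _ hmZ.ne', zpow_add]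
        group }
  have hfv : ∀ g : ψ.ker, f g = (Φ g).left 0 * T ^ ((φ g).toAdd / (m : ℤ)) := fun _ => rfl
  have hinr : ∀ k : ℤ, Φ (t ^ k) = SemidirectProduct.inr (ofAdd k) := by
    intro k
    rw [map_zpow, hΦt, ← map_zpow, ← ofAdd_zsmul, smul_eq_mul, mul_one]
  have hφt : ∀ k : ℤ, (φ (t ^ k)).toAdd = k := by
    intro k
    rw [map_zpow, ht, ← ofAdd_zsmul, toAdd_ofAdd, smul_eq_mul, mul_one]
  have hT : T ∈ f.range := by
    have h1 : t ^ (m : ℤ) ∈ ψ.ker := hψ' _ 1 (by rw [hφt, one_mul])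
    refine ⟨⟨_, h1⟩, ?_⟩
    rw [hfv, hφt, Int.ediv_self hmZ.ne', hinr, SemidirectProduct.left_inr, zpow_one]
    show 1 * T = T
    rw [one_mul]
  have hCY : ∀ i p, C ^ (Y i p) ∈ f.range := by
    intro i p
    let p' : ℤ := p.val
    have hp' : (p' : ZMod m) = p := by simp [p']
    let g := t ^ p' * π (FreeGroup.of i) * t ^ (-(p' + nx (some i)))
    have hg0 : (φ g).toAdd = 0 := by
      show (φ (t ^ p' * π (FreeGroup.of i) * t ^ (-(p' + nx (some i))))).toAdd = 0
      have h1 : φ (t ^ p' * π (FreeGroup.of i) * t ^ (-(p' + nx (some i)))) =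
          φ (t ^ p') * φ (π (FreeGroup.of i)) * φ (t ^ (-(p' + nx (some i)))) := by
        rw [map_mul φ, map_mul φ]
      rw [h1, toAdd_mul, toAdd_mul, hφt, hφt]
      show p' + nx (some i) + _ = 0
      ring
    have hgm : g ∈ ψ.ker := hψ' g 0 (by rw [hg0, zero_mul])
    refine ⟨⟨g, hgm⟩, ?_⟩
    rw [hfv, hg0, Int.zero_ediv, zpow_zero, mul_one]
    show (Φ (t ^ p' * π (FreeGroup.of i) * t ^ (-(p' + nx (some i))))).left 0 = _
    rw [map_mul, map_mul, hinr, hinr, hΦ, left_mul, left_mul]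
    have h1 : j (FreeGroup.of i) = FreeGroup.of (some i) := by simp [j]
    rw [h1, FreeGroup.lift_apply_of, SemidirectProduct.left_inr, SemidirectProduct.left_inr,
      SemidirectProduct.right_inr, toAdd_ofAdd, zero_add, hΦl]
    have h2 : p' / (m : ℤ) = 0 := by
      refine Int.ediv_eq_zero_of_lt (Int.natCast_nonneg _) ?_
      show (p.val : ℤ) < m
      exact_mod_cast ZMod.val_lt p
    rw [h2]
    show 1 * (T ^ (0 : ℤ) * C ^ (Y i (p' : ZMod m)) * (T ^ (0 : ℤ))⁻¹) * 1 = _
    rw [hp']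
    group
  have hC : C ∈ f.range := by
    let Z : AddSubgroup ℤ :=
      { carrier := {z | C ^ z ∈ f.range}
        add_mem' := by
          intro a b ha hb
          show C ^ (a + b) ∈ f.range
          rw [zpow_add]
          exact Subgroup.mul_mem _ ha hb
        zero_mem' := by
          show C ^ (0 : ℤ) ∈ f.range
          rw [zpow_zero]
          exact Subgroup.one_mem _
        neg_mem' := by
          intro a ha
          show C ^ (-a) ∈ f.range
          rw [zpow_neg]
          exact Subgroup.inv_mem _ ha }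
    have h1 : AddSubgroup.closure (Set.range fun x : Fin n × ZMod m => Y x.1 x.2) ≤ Z := by
      rw [AddSubgroup.closure_le]
      rintro _ ⟨x, rfl⟩
      exact hCY _ _
    have h2 : C ^ (1 : ℤ) ∈ f.range := h1 hY1
    rwa [zpow_one] at h2
  refine ⟨ψ.ker, inferInstance, f, ?_⟩
  rw [← MonoidHom.range_eq_top, eq_top_iff, ← FreeGroup.closure_range_of, Subgroup.closure_le]
  rintro _ ⟨i, rfl⟩
  fin_cases i
  · exact hT
  · exact hC

end Pool.Agent.Helper35.SH
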