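import Pool.Agent.Helper35.SH.Ineq
import Pool.Agent.Helper35.SH.Large
set_option autoImplicit false

/-!
Poincare duality complexes of dimension four with negative Euler characteristic.
-/

open Matrix Multiplicative

namespace Pool.Agent.Helper35.SH

variable {R : Type} [CommRing R] [Algebra R ℚ] {G : Type} [Group G]

/-- the permutation representation on `ZMod m` through `φ` -/
noncomputable def perm (φ : G →* Multiplicative ℤ) (m : ℕ) [NeZero m] :
    G →* Matrix (ZMod m) (ZMod m) ℚ where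
  toFun g := Matrix.of fun p q => if p + ((φ g).toAdd : ℤ) = q then 1 else 0
  map_one' := by
    ext p q
    simp [Matrix.one_apply]
  map_mul' g h := by
    ext p q
    rw [Matrix.mul_apply, Finset.sum_eq_single (p + ((φ g).toAdd : ℤ))]
    · simp [add_assoc]
    · intro r _ hr
      rw [Matrix.of_apply, if_neg (Ne.symm hr), zero_mul]
    · intro h
      exact absurd (Finset.mem_univ _) h

lemma perm_mulVec (φ : G →* Multiplicative ℤ) (m : ℕ) [NeZero m] (g : G) (v : ZMod m → ℚ)
    (p : ZMod m) : (perm φ m g *ᵥ v) p = v (p + ((φ g).toAdd : ℤ)) := by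
  simp [Matrix.mulVec, dotProduct, perm]

lemma contra_perm (φ : G →* Multiplicative ℤ) (m : ℕ) [NeZero m] :
    contra 1 (perm φ m) = perm φ m := by
  ext g p q
  show (((1 : ℤˣ) : ℤ) : ℚ) * (if q + ((φ g⁻¹).toAdd : ℤ) = p then (1 : ℚ) else 0) =
    if p + ((φ g).toAdd : ℤ) = q then 1 else 0
  rw [Units.val_one, Int.cast_one, one_mul]
  congr 1
  rw [map_inv, toAdd_inv, Int.cast_neg, eq_iff_iff]
  constructor
  · rintro rfl
    ring
  · rintro rfl
    ring

/-- an infinite group with enough cocycles maps onto `ℤ` -/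
lemma exists_phi [Group.FG G] (c : G → ℚ) (hc : ∀ g h, c (g * h) = c g + c h) (g₀ : G)
    (hg₀ : c g₀ ≠ 0) : ∃ (φ : G →* Multiplicative ℤ) (t : G), φ t = ofAdd 1 := by
  classical
  obtain ⟨S, hS⟩ := Group.FG.out (G := G)
  obtain ⟨u, hu⟩ := closure_rat (S.finite_toSet.image c)
  have hc1 : c 1 = 0 := by
    have := hc 1 1
    rw [mul_one] at this
    exact left_eq_add.1 this
  have hcinv : ∀ g, c g⁻¹ = - c g := by
    intro g
    have := hc g⁻¹ g
    rw [inv_mul_cancel, hc1] at this
    linarith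
  have h1 : ∀ g, c g ∈ AddSubgroup.zmultiples u := by
    intro g
    rw [← hu]
    have hg : g ∈ Subgroup.closure (S : Set G) := by rw [hS]; trivial
    induction hg using Subgroup.closure_induction with
    | mem x hx => exact AddSubgroup.subset_closure ⟨x, hx, rfl⟩
    | one => rw [hc1]; exact AddSubgroup.zero_mem _
    | mul x y _ _ hx hy => rw [hc]; exact AddSubgroup.add_mem _ hx hy
    | inv x _ hx => rw [hcinv]; exact AddSubgroup.neg_mem _ hx
  have h2 : ∀ x ∈ AddSubgroup.closure (c '' (S : Set G)), ∃ t, c t = x := by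
    intro x hmem
    induction hmem using AddSubgroup.closure_induction with
    | mem x hx => obtain ⟨s, _, hs⟩ := hx; exact ⟨s, hs⟩
    | zero => exact ⟨1, hc1⟩
    | add x y _ _ hx hy =>
      obtain ⟨s, hs⟩ := hx
      obtain ⟨s', hs'⟩ := hy
      exact ⟨s * s', by rw [hc, hs, hs']⟩
    | neg x _ hx =>
      obtain ⟨s, hs⟩ := hx
      exact ⟨s⁻¹, by rw [hcinv, hs]⟩
  obtain ⟨t, ht⟩ := h2 u (by
    rw [hu]
    exact AddSubgroup.mem_zmultiples u)
  have h3 : ∀ g, ∃ z : ℤ, (z : ℚ) * u = c g := by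
    intro g
    obtain ⟨z, hz⟩ := AddSubgroup.mem_zmultiples_iff.1 (h1 g)
    exact ⟨z, by rw [← hz, zsmul_eq_mul]⟩
  choose z hz using h3
  have hu0 : u ≠ 0 := by
    rintro rfl
    apply hg₀
    rw [← hz, mul_zero]
  have hinj : ∀ x y : ℤ, (x : ℚ) * u = y * u → x = y := by
    intro x y h
    exact_mod_cast mul_right_cancel₀ hu0 h
  refine ⟨{ toFun := fun g => ofAdd (z g), map_one' := ?_, map_mul' := ?_ }, t, ?_⟩
  · have : z 1 = 0 := hinj _ _ (by rw [hz, hc1]; simp)
    rw [this]
    rfl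
  · intro g h
    have : z (g * h) = z g + z h := hinj _ _ (by
      push_cast
      rw [add_mul, hz, hz, hz, hc])
    rw [this]
    rfl
  · have : z t = 1 := hinj _ _ (by rw [hz, ht]; simp)
    show ofAdd (z t) = ofAdd 1
    rw [this]

theorem large_of_negative [Group.IsFinitelyPresented G] {a b c d e : Type} [Fintype a]
    [Fintype b] [Fintype c] [Fintype d] [Fintype e]
    {D₁ : Matrix b a (MonoidAlgebra R G)} {D₂ : Matrix c b (MonoidAlgebra R G)}
    {D₃ : Matrix d c (MonoidAlgebra R G)} {D₄ : Matrix e d (MonoidAlgebra R G)}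
    (h : IsStart D₁ D₂) (h' : IsStart (dual 1 D₄) (dual 1 D₃)) (h0 : D₃ * D₂ = 0)
    (hχ : Fintype.card a + Fintype.card c + Fintype.card e < Fintype.card b + Fintype.card d) :
    ∃ K : Subgroup G, K.FiniteIndex ∧ ∃ f : K →* FreeGroup (Fin 2), Function.Surjective f := by
  classical
  have hFG : Group.FG G := by
    obtain ⟨n, π, hπ, _⟩ := Group.IsFinitelyPresented.out (G := G)
    exact Group.fg_of_surjective hπ
  -- a map onto the integers
  obtain ⟨φ, t, ht⟩ : ∃ (φ : G →* Multiplicative ℤ) (t : G), φ t = ofAdd 1 := by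
    have h1 := finrank_add_finrank_ge 1 (1 : G →* Matrix Unit Unit ℚ) h h' h0
    have h2 : contra 1 (1 : G →* Matrix Unit Unit ℚ) = 1 := by
      ext g p q
      simp [contra]
    rw [h2, Fintype.card_unit] at h1
    have hfd := finiteDimensional_Z1 (1 : G →* Matrix Unit Unit ℚ)
    have h3 : 0 < Module.finrank ℚ (Z1 (1 : G →* Matrix Unit Unit ℚ)) := by omega
    obtain ⟨c, hc⟩ := (Module.finrank_pos_iff_exists_ne_zero).1 h3
    have hc' : (c : G → Unit → ℚ) ≠ 0 := fun h => hc (Subtype.ext h)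
    obtain ⟨g₀, hg₀⟩ := Function.ne_iff.1 hc'
    refine exists_phi (fun g => (c : G → Unit → ℚ) g ()) ?_ g₀ ?_
    · intro g h
      have := c.2 g h
      rw [this]
      simp
    · intro h4
      apply hg₀
      ext
      exact h4
  refine large_of_crossed φ t ht ?_
  intro S N
  let m : ℕ := 2 * (S.card * N) + 1
  have : NeZero m := ⟨by omega⟩
  refine ⟨m, by omega, ?_⟩
  have h1 := finrank_add_finrank_ge 1 (perm φ m) h h' h0
  rw [contra_perm, ZMod.card] at h1
  have hfd := finiteDimensional_Z1 (perm φ m)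
  let r : Z1 (perm φ m) →ₗ[ℚ] (ZMod m → ℚ) × (S × Fin N → ℚ) :=
    { toFun := fun c => ((c : G → ZMod m → ℚ) t, fun x => (c : G → ZMod m → ℚ) x.1 (x.2 : ℕ))
      map_add' := fun _ _ => rfl
      map_smul' := fun _ _ => rfl }
  have h2 : LinearMap.ker r ≠ ⊥ := by
    refine LinearMap.ker_ne_bot_of_finrank_lt ?_
    rw [Module.finrank_prod, Module.finrank_pi, Module.finrank_pi, ZMod.card, Fintype.card_prod,
      Fintype.card_coe, Fintype.card_fin]
    have h3 : (Fintype.card a + Fintype.card c + Fintype.card e + 1) * m ≤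
        (Fintype.card b + Fintype.card d) * m := Nat.mul_le_mul_right _ hχ
    rw [add_mul, one_mul] at h3
    have h4 : m = 2 * (S.card * N) + 1 := rfl
    omega
  obtain ⟨c, hcr, hc0⟩ := (Submodule.ne_bot_iff _).1 h2
  have hcr' : r c = 0 := hcr
  have hc' : (c : G → ZMod m → ℚ) ≠ 0 := fun h => hc0 (Subtype.ext h)
  obtain ⟨g₀, hg₀⟩ := Function.ne_iff.1 hc'
  obtain ⟨p₀, hp₀⟩ := Function.ne_iff.1 hg₀
  refine ⟨c, ?_, ?_, ⟨g₀, p₀, hp₀⟩, ?_⟩
  · intro g h p
    have := congrFun (c.2 g h) p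
    rw [this, Pi.add_apply, perm_mulVec]
  · intro p
    exact congrFun (congrArg Prod.fst hcr') p
  · intro s hs i hi
    exact congrFun (congrArg Prod.snd hcr') (⟨s, hs⟩, ⟨i, hi⟩)

end Pool.Agent.Helper35.SH
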