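import Mathlib
set_option autoImplicit false

/-!
Largeness from crossed homomorphisms supported away from a window.
-/

namespace Pool.Agent.Helper35.SH

/-- every finitely generated subgroup of `ℚ` is cyclic -/
lemma closure_rat {S : Set ℚ} (hS : S.Finite) : ∃ u : ℚ, AddSubgroup.closure S =
    AddSubgroup.zmultiples u := by
  classical
  let D : ℕ := ∏ x ∈ hS.toFinset, x.den
  have hD : (D : ℚ) ≠ 0 := by
    simp only [D, Nat.cast_prod, Finset.prod_ne_zero_iff]
    intro x _
    exact_mod_cast x.den_nz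
  have hint : ∀ x ∈ S, ∃ z : ℤ, (z : ℚ) / D = x := by
    intro x hx
    have hx' : x ∈ hS.toFinset := hS.mem_toFinset.2 hx
    obtain ⟨k, hk⟩ : x.den ∣ D := Finset.dvd_prod_of_mem _ hx'
    refine ⟨x.num * k, ?_⟩
    have hk0 : (k : ℚ) ≠ 0 := by
      rintro h
      rw [hk, Nat.cast_mul, h, mul_zero] at hD
      exact hD rfl
    have hden : (x.den : ℚ) ≠ 0 := by exact_mod_cast x.den_nz
    rw [hk]
    push_cast
    rw [mul_div_mul_right _ _ hk0]
    exact Rat.num_div_den x
  let f : ℤ →+ ℚ :=
    { toFun := fun z => (z : ℚ) / D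
      map_zero' := by simp
      map_add' := by
        intro x y
        push_cast
        rw [add_div] }
  obtain ⟨d, hd⟩ := Int.subgroup_cyclic ((AddSubgroup.closure S).comap f)
  have hdm : ∀ z : ℤ, f z ∈ AddSubgroup.closure S ↔ ∃ k : ℤ, k • d = z := by
    intro z
    rw [← AddSubgroup.mem_comap, hd, AddSubgroup.mem_closure_singleton]
  refine ⟨f d, le_antisymm ?_ ?_⟩
  · rw [AddSubgroup.closure_le]
    intro x hx
    obtain ⟨z, hz⟩ := hint x hx
    have hz' : f z = x := hz
    obtain ⟨k, hk⟩ := (hdm z).1 (by rw [hz']; exact AddSubgroup.subset_closure hx)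
    refine AddSubgroup.mem_zmultiples_iff.2 ⟨k, ?_⟩
    rw [← hz', ← hk, map_zsmul]
  · rw [AddSubgroup.zmultiples_le]
    exact (hdm d).2 ⟨1, one_zsmul d⟩

section Wreath

variable (Q : Type) [Group Q]

/-- the shift action of `ℤ` on the sequences -/
def shift : Multiplicative ℤ →* MulAut (ℤ → Q) where
  toFun a :=
    { toFun := fun y p => y (p + a.toAdd)
      invFun := fun y p => y (p - a.toAdd)
      left_inv := fun y => by ext p; simp
      right_inv := fun y => by ext p; simp
      map_mul' := fun _ _ => rfl }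
  map_one' := by ext y p; simp
  map_mul' a b := by
    ext y p
    show y (p + (a * b).toAdd) = y (p + a.toAdd + b.toAdd)
    rw [toAdd_mul, add_assoc]

/-- the unrestricted wreath product -/
abbrev Wr := (ℤ → Q) ⋊[shift Q] Multiplicative ℤ

variable {Q}

lemma left_mul (x y : Wr Q) (p : ℤ) :
    (x * y).left p = x.left p * y.left (p + x.right.toAdd) := rfl

lemma right_mul (x y : Wr Q) : (x * y).right = x.right * y.right := rfl

lemma left_inv' (x : Wr Q) (p : ℤ) : (x⁻¹).left p = (x.left (p - x.right.toAdd))⁻¹ := by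
  have h1 := left_mul x⁻¹ x p
  rw [inv_mul_cancel] at h1
  have h2 : (x⁻¹).right.toAdd = -x.right.toAdd := by
    rw [SemidirectProduct.inv_right, toAdd_inv]
  rw [h2, ← sub_eq_add_neg] at h1
  exact eq_inv_of_mul_eq_one_left h1.symm

/-- equivariant elements -/
def equi (m : ℤ) (T : Q) : Subgroup (Wr Q) where
  carrier := {x | ∀ p, x.left (p + m) = T * x.left p * T⁻¹}
  mul_mem' := by
    intro x y hx hy p
    rw [left_mul, left_mul, hx p, add_right_comm, hy]
    group
  one_mem' := by
    intro p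
    show (1 : Q) = T * 1 * T⁻¹
    group
  inv_mem' := by
    intro x hx p
    rw [left_inv', left_inv', show p + m - x.right.toAdd = p - x.right.toAdd + m by ring, hx]
    group

lemma equi_iter {m : ℤ} {T : Q} {x : Wr Q} (hx : x ∈ equi m T) (k : ℤ) (p : ℤ) :
    x.left (p + k * m) = T ^ k * x.left p * (T ^ k)⁻¹ := by
  have hx' : ∀ p, x.left (p + m) = T * x.left p * T⁻¹ := hx
  induction k using Int.induction_on with
  | zero => simp
  | succ k ih =>
    rw [show p + ((k : ℤ) + 1) * m = p + k * m + m by ring, hx', ih, add_comm (k : ℤ) 1, zpow_add,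
      zpow_one]
    group
  | pred k ih =>
    have h1 := hx' (p + (-(k : ℤ) - 1) * m)
    rw [show p + (-(k : ℤ) - 1) * m + m = p + -(k : ℤ) * m by ring, ih] at h1
    have h2 : x.left (p + (-(k : ℤ) - 1) * m) = T⁻¹ * (T ^ (-(k : ℤ)) * x.left p *
        (T ^ (-(k : ℤ)))⁻¹) * T := by
      rw [h1]
      group
    rw [h2, sub_eq_add_neg, add_comm, zpow_add, zpow_neg_one]
    group

end Wreath

section Paths

variable {X Q : Type} [Group Q]

/-- the path of a word starting at `p` stays in `I` -/
def Stay (nx : X → ℤ) (I : Set ℤ) : List (X × Bool) → ℤ → Prop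
  | [], _ => True
  | (x, true) :: L, p => p ∈ I ∧ Stay nx I L (p + nx x)
  | (x, false) :: L, p => p - nx x ∈ I ∧ Stay nx I L (p - nx x)

/-- the exponent collected along the path -/
def expo (nx : X → ℤ) (y : X → ℤ → ℤ) : List (X × Bool) → ℤ → ℤ
  | [], _ => 0
  | (x, true) :: L, p => y x p + expo nx y L (p + nx x)
  | (x, false) :: L, p => -y x (p - nx x) + expo nx y L (p - nx x)

lemma stay_ball (nx : X → ℤ) (M : ℕ) (hM : ∀ x, |nx x| ≤ M) (p₀ : ℤ) (B : ℤ) :
    ∀ (L : List (X × Bool)) (p : ℤ), |p - p₀| + M * L.length ≤ B →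
      Stay nx {q | |q - p₀| ≤ B} L p := by
  intro L
  induction L with
  | nil => intro p _; trivial
  | cons a L ih =>
    intro p hp
    obtain ⟨x, b⟩ := a
    have h1 : (((x, b) :: L).length : ℤ) = L.length + 1 := by simp
    rw [h1, mul_add, mul_one] at hp
    have hx := hM x
    have hnn : 0 ≤ (M : ℤ) * L.length := by positivity
    cases b with
    | true =>
      refine ⟨?_, ih _ ?_⟩
      · show |p - p₀| ≤ B
        have := abs_nonneg (nx x)
        linarith
      · have h2 : |p + nx x - p₀| ≤ |p - p₀| + |nx x| := by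
          rw [show p + nx x - p₀ = (p - p₀) + nx x by ring]
          exact abs_add_le _ _
        linarith
    | false =>
      have h2 : |p - nx x - p₀| ≤ |p - p₀| + |nx x| := by
        rw [show p - nx x - p₀ = (p - p₀) - nx x by ring]
        exact abs_sub _ _
      refine ⟨?_, ih _ ?_⟩
      · show |p - nx x - p₀| ≤ B
        linarith
      · linarith

lemma left_of_stay (nx : X → ℤ) (y : X → ℤ → ℤ) (T c : Q) (Φ : X → Wr Q)
    (hn : ∀ x, (Φ x).right = Multiplicative.ofAdd (nx x)) (I : Set ℤ) (k : ℤ)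
    (hI : ∀ x, ∀ p ∈ I, (Φ x).left p = T ^ k * c ^ (y x p) * (T ^ k)⁻¹) :
    ∀ (L : List (X × Bool)) (p : ℤ), Stay nx I L p →
      (FreeGroup.lift Φ (FreeGroup.mk L)).left p =
        T ^ k * c ^ (expo nx y L p) * (T ^ k)⁻¹ := by
  intro L
  induction L with
  | nil =>
    intro p _
    rw [FreeGroup.lift_mk]
    simp [expo]
  | cons a L ih =>
    intro p hp
    obtain ⟨x, b⟩ := a
    rw [FreeGroup.lift_mk, List.map_cons, List.prod_cons, ← FreeGroup.lift_mk]
    cases b with
    | true =>
      obtain ⟨h1, h2⟩ := hp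
      show (Φ x * _).left p = _
      rw [left_mul, hI x p h1, hn, toAdd_ofAdd, ih _ h2, expo, zpow_add]
      group
    | false =>
      obtain ⟨h1, h2⟩ := hp
      show ((Φ x)⁻¹ * _).left p = _
      have h3 : ((Φ x)⁻¹).right.toAdd = -nx x := by
        rw [SemidirectProduct.inv_right, hn, toAdd_inv, toAdd_ofAdd]
      rw [left_mul, left_inv', hn, toAdd_ofAdd, hI x _ h1, h3, ← sub_eq_add_neg, ih _ h2, expo,
        zpow_add, zpow_neg]
      group

end Paths

end Pool.Agent.Helper35.SH
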