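import Pool.Agent.Helper35.SH.Twist
set_option autoImplicit false

/-!
The Euler characteristic inequality for twisted cocycles.
-/

open Matrix

namespace Pool.Agent.Helper35.SH

variable {R : Type} [CommRing R] {G : Type} [Group G] {F : Type} [Field F] [Algebra R F]
  {ι : Type} [Fintype ι] [DecidableEq ι]

lemma blk_mul (ρ : G →* Matrix ι ι F) {a b c : Type} [Fintype b]
    (D : Matrix c b (MonoidAlgebra R G)) (E : Matrix b a (MonoidAlgebra R G)) :
    blk ρ (D * E) = blk ρ D * blk ρ E := by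
  ext ⟨i, p⟩ ⟨j, q⟩
  simp only [blk, Matrix.mul_apply, map_sum, map_mul, Fintype.sum_prod_type, Matrix.sum_apply]

omit [Algebra R F] in
lemma contra_contra (w : G →* ℤˣ) (ρ : G →* Matrix ι ι F) : contra w (contra w ρ) = ρ := by
  ext g p q
  have h : ((w g : ℤ) : F) * ((w g⁻¹ : ℤ) : F) = 1 := by
    rw [← Int.cast_mul, ← Units.val_mul, ← map_mul, mul_inv_cancel, map_one, Units.val_one,
      Int.cast_one]
  show ((w g : ℤ) : F) * (((w g⁻¹ : ℤ) : F) * (ρ g⁻¹⁻¹) p q) = ρ g p q
  rw [← mul_assoc, h, one_mul, inv_inv]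

omit [Algebra R F] in
theorem finiteDimensional_Z1 [Group.FG G] (ρ : G →* Matrix ι ι F) :
    FiniteDimensional F (Z1 ρ) := by
  obtain ⟨S, hS⟩ := Group.FG.out (G := G)
  let r : Z1 ρ →ₗ[F] (S → ι → F) :=
    { toFun := fun c s => (c : G → ι → F) s
      map_add' := fun _ _ => rfl
      map_smul' := fun _ _ => rfl }
  refine Module.Finite.of_injective r ?_
  refine (injective_iff_map_eq_zero _).2 ?_
  intro c hc
  have h0 : ∀ s ∈ S, (c : G → ι → F) s = 0 := fun s hs => congrFun hc ⟨s, hs⟩
  have hmul : ∀ g h, (c : G → ι → F) (g * h) = (c : G → ι → F) g + ρ g *ᵥ (c : G → ι → F) h := c.2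
  have h1 : (c : G → ι → F) 1 = 0 := by
    have := hmul 1 1
    rw [mul_one, map_one, Matrix.one_mulVec] at this
    exact left_eq_add.1 this
  let Z : Subgroup G :=
    { carrier := {g | (c : G → ι → F) g = 0}
      mul_mem' := by
        intro g h hg hh
        have hg' : (c : G → ι → F) g = 0 := hg
        have hh' : (c : G → ι → F) h = 0 := hh
        show (c : G → ι → F) (g * h) = 0
        rw [hmul, hg', hh', Matrix.mulVec_zero, add_zero]
      one_mem' := h1
      inv_mem' := by
        intro g hg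
        have hg' : (c : G → ι → F) g = 0 := hg
        show (c : G → ι → F) g⁻¹ = 0
        have := hmul g⁻¹ g
        rw [inv_mul_cancel, h1, hg', Matrix.mulVec_zero, add_zero] at this
        exact this.symm }
  have hZ : Z = ⊤ := by
    rw [eq_top_iff, ← hS, Subgroup.closure_le]
    intro s hs
    exact h0 s hs
  ext g : 2
  have : g ∈ Z := by rw [hZ]; trivial
  exact this

/-- `dim Z¹(G;V) + dim Z¹(G;V*) ≥ (2 - χ) dim V` -/
theorem finrank_add_finrank_ge [Group.FG G] (w : G →* ℤˣ) (ρ : G →* Matrix ι ι F) {a b c d e : Type} [Fintype a]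
    [Fintype b] [Fintype c] [Fintype d] [Fintype e]
    {D₁ : Matrix b a (MonoidAlgebra R G)} {D₂ : Matrix c b (MonoidAlgebra R G)}
    {D₃ : Matrix d c (MonoidAlgebra R G)} {D₄ : Matrix e d (MonoidAlgebra R G)}
    (h : IsStart D₁ D₂) (h' : IsStart (dual w D₄) (dual w D₃)) (h0 : D₃ * D₂ = 0) :
    2 * Fintype.card ι + (Fintype.card b + Fintype.card d) * Fintype.card ι ≤
      Module.finrank F (Z1 ρ) + Module.finrank F (Z1 (contra w ρ)) +
        (Fintype.card a + Fintype.card c + Fintype.card e) * Fintype.card ι := by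
  classical
  have := finiteDimensional_Z1 ρ
  have := finiteDimensional_Z1 (contra w ρ)
  have h1 := finrank_Z1_ge ρ h
  have h2 := finrank_Z1_ge (contra w ρ) h'
  rw [blk_dual, contra_contra, Matrix.rank_transpose] at h2
  have h3 : (blk ρ D₃).rank + (blk ρ D₂).rank ≤ Fintype.card (c × ι) := by
    refine Matrix.rank_add_rank_le_card_of_mul_eq_zero ?_
    rw [← blk_mul, h0]
    ext ⟨i, p⟩ ⟨j, q⟩
    simp [blk]
  rw [Fintype.card_prod] at h3
  rw [add_mul, add_mul, add_mul]
  omega

end Pool.Agent.Helper35.SH
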