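import Pool.Agent.Helper35.SH.Defs
set_option autoImplicit false

/-!
Twisted cocycles: the Euler characteristic inequality.
-/

open Matrix

namespace Pool.Agent.Helper35.SH

variable {R : Type} [CommRing R] {G : Type} [Group G] {F : Type} [Field F] [Algebra R F]
  {ι : Type} [Fintype ι] [DecidableEq ι]

noncomputable section

/-- the extension of a matrix representation to the group algebra -/
def ext (ρ : G →* Matrix ι ι F) : MonoidAlgebra R G →ₐ[R] Matrix ι ι F :=
  MonoidAlgebra.lift R (Matrix ι ι F) G ρ

lemma ext_single (ρ : G →* Matrix ι ι F) (g : G) (q : R) :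
    ext ρ (MonoidAlgebra.single g q) = q • ρ g := by
  unfold ext
  rw [MonoidAlgebra.lift_single]

/-- the block matrix obtained by applying the representation to the entries -/
def blk (ρ : G →* Matrix ι ι F) {a b : Type} (D : Matrix b a (MonoidAlgebra R G)) :
    Matrix (b × ι) (a × ι) F :=
  fun x y => ext ρ (D x.1 y.1) x.2 y.2

lemma twist_single (w : G →* ℤˣ) (g : G) (q : R) :
    twist R w (MonoidAlgebra.single g q) = q • MonoidAlgebra.single g (((w g : ℤ) : R)) := by
  unfold twist
  rw [MonoidAlgebra.lift_single]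
  rfl

lemma ext_antipode (w : G →* ℤˣ) (ρ : G →* Matrix ι ι F) (x : MonoidAlgebra R G) :
    ext ρ (HopfAlgebra.antipode R (twist R w x)) = (ext (contra w ρ) x)ᵀ := by
  induction x using MonoidAlgebra.induction_linear with
  | zero => simp
  | add f g hf hg => rw [map_add, map_add, map_add, map_add, hf, hg, Matrix.transpose_add]
  | single g q =>
    rw [twist_single, map_smul, map_smul, MonoidAlgebra.antipode_single, ext_single, ext_single,
      Matrix.transpose_smul]
    have h1 : HopfAlgebra.antipode R (((w g : ℤ) : R)) = ((w g : ℤ) : R) := by simp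
    rw [h1]
    congr 1
    show (((w g : ℤ) : R)) • ρ g⁻¹ = ((((w g : ℤ) : F)) • (ρ g⁻¹)ᵀ)ᵀ
    rw [Matrix.transpose_smul, Matrix.transpose_transpose, ← algebraMap_smul F (((w g : ℤ) : R)),
      map_intCast]

lemma blk_dual (w : G →* ℤˣ) (ρ : G →* Matrix ι ι F) {a b : Type}
    (D : Matrix b a (MonoidAlgebra R G)) :
    blk ρ (dual w D) = (blk (contra w ρ) D)ᵀ := by
  ext ⟨j, p⟩ ⟨i, q⟩
  simp only [blk, dual, Matrix.transpose_apply, ext_antipode]

/-- the evaluation of `R[G]^a` on `a → V` -/
def ev (ρ : G →* Matrix ι ι F) {a : Type} [Fintype a] (f : a × ι → F)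
    (v : a → MonoidAlgebra R G) : ι → F :=
  ∑ j, ext ρ (v j) *ᵥ (fun p => f (j, p))

variable {ρ : G →* Matrix ι ι F} {a b c : Type} [Fintype a] [Fintype b] [Fintype c]

lemma ev_add (f : a × ι → F) (v v' : a → MonoidAlgebra R G) :
    ev ρ f (v + v') = ev ρ f v + ev ρ f v' := by
  simp only [ev, Pi.add_apply, map_add, Matrix.add_mulVec, Finset.sum_add_distrib]

lemma ev_smul (f : a × ι → F) (x : MonoidAlgebra R G) (v : a → MonoidAlgebra R G) :
    ev ρ f (x • v) = ext ρ x *ᵥ ev ρ f v := by
  simp only [ev, Pi.smul_apply, smul_eq_mul, map_mul, Matrix.mulVec_sum, Matrix.mulVec_mulVec]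

lemma ev_zero (f : a × ι → F) : ev ρ f (0 : a → MonoidAlgebra R G) = 0 := by
  simp [ev]

lemma ev_sub (f : a × ι → F) (v v' : a → MonoidAlgebra R G) :
    ev ρ f (v - v') = ev ρ f v - ev ρ f v' := by
  simp only [ev, Pi.sub_apply, map_sub, Matrix.sub_mulVec, Finset.sum_sub_distrib]

lemma ev_add_left (f f' : a × ι → F) (v : a → MonoidAlgebra R G) :
    ev ρ (f + f') v = ev ρ f v + ev ρ f' v := by
  simp only [ev, Pi.add_apply, ← Finset.sum_add_distrib]
  refine Finset.sum_congr rfl fun j _ => ?_
  rw [← Matrix.mulVec_add]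
  rfl

lemma ev_smul_left (x : F) (f : a × ι → F) (v : a → MonoidAlgebra R G) :
    ev ρ (x • f) v = x • ev ρ f v := by
  simp only [ev, Finset.smul_sum]
  refine Finset.sum_congr rfl fun j _ => ?_
  rw [← Matrix.mulVec_smul]
  rfl

lemma ev_vecMul (D : Matrix b a (MonoidAlgebra R G)) (f : a × ι → F)
    (w : b → MonoidAlgebra R G) :
    ev ρ f (w ᵥ* D) = ev ρ (blk ρ D *ᵥ f) w := by
  have h1 : ∀ i, (fun p => (blk ρ D *ᵥ f) (i, p)) =
      ∑ j, ext ρ (D i j) *ᵥ (fun p => f (j, p)) := by
    intro i
    ext p
    simp only [Matrix.mulVec, dotProduct, blk, Finset.sum_apply, Fintype.sum_prod_type]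
  show ∑ j, ext ρ ((w ᵥ* D) j) *ᵥ (fun p => f (j, p)) =
    ∑ i, ext ρ (w i) *ᵥ (fun p => (blk ρ D *ᵥ f) (i, p))
  simp only [h1, Matrix.mulVec_sum, Matrix.mulVec_mulVec, ← map_mul]
  rw [Finset.sum_comm]
  refine Finset.sum_congr rfl fun j _ => ?_
  simp only [Matrix.vecMul, dotProduct, map_sum, Matrix.sum_mulVec]

lemma ev_single [DecidableEq a] (f : a × ι → F) (j : a) :
    ev ρ f (Pi.single j (1 : MonoidAlgebra R G)) = fun p => f (j, p) := by
  unfold ev
  rw [Finset.sum_eq_single j]
  · simp
  · intro i _ hij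
    simp [Pi.single_eq_of_ne hij]
  · simp

/-- the augmentation of `R[G]^a` with the given images of the basis vectors -/
def aug (t : a → R) (v : a → MonoidAlgebra R G) : R :=
  ∑ j, t j * Coalgebra.counit (v j)

lemma aug_add (t : a → R) (v v' : a → MonoidAlgebra R G) :
    aug t (v + v') = aug t v + aug t v' := by
  simp only [aug, Pi.add_apply, map_add, mul_add, Finset.sum_add_distrib]

lemma aug_sub (t : a → R) (v v' : a → MonoidAlgebra R G) :
    aug t (v - v') = aug t v - aug t v' := by
  simp only [aug, Pi.sub_apply, map_sub, mul_sub, Finset.sum_sub_distrib]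

lemma counit_mul (x y : MonoidAlgebra R G) :
    (Coalgebra.counit (x * y) : R) = Coalgebra.counit x * Coalgebra.counit y :=
  Bialgebra.counit_mul x y

omit [Group G] in
lemma counit_single_one (g : G) :
    (Coalgebra.counit (MonoidAlgebra.single g (1 : R)) : R) = 1 := by
  simp

lemma aug_smul (t : a → R) (x : MonoidAlgebra R G) (v : a → MonoidAlgebra R G) :
    aug t (x • v) = Coalgebra.counit x * aug t v := by
  simp only [aug, Pi.smul_apply, smul_eq_mul, counit_mul, Finset.mul_sum]
  refine Finset.sum_congr rfl fun j _ => ?_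
  ring

lemma aug_ratsmul (t : a → R) (q : R) (v : a → MonoidAlgebra R G) :
    aug t (q • v) = q * aug t v := by
  simp only [aug, Pi.smul_apply, map_smul, smul_eq_mul, Finset.mul_sum]
  refine Finset.sum_congr rfl fun j _ => ?_
  ring

lemma ev_ratsmul (f : a × ι → F) (q : R) (v : a → MonoidAlgebra R G) :
    ev ρ f (q • v) = q • ev ρ f v := by
  simp only [ev, Pi.smul_apply, map_smul, Matrix.smul_mulVec, Finset.smul_sum]

lemma ev_zero_left (v : a → MonoidAlgebra R G) : ev ρ (0 : a × ι → F) v = 0 := by
  have := ev_smul_left (ρ := ρ) (0 : F) (0 : a × ι → F) v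
  rwa [zero_smul, zero_smul] at this

/-- the key dimension estimate -/
theorem finrank_Z1_ge (ρ : G →* Matrix ι ι F) {D₁ : Matrix b a (MonoidAlgebra R G)}
    {D₂ : Matrix c b (MonoidAlgebra R G)} (h : IsStart D₁ D₂) [FiniteDimensional F (Z1 ρ)] :
    Fintype.card b * Fintype.card ι + Fintype.card ι ≤
      Module.finrank F (Z1 ρ) + (blk ρ D₂).rank + Fintype.card a * Fintype.card ι := by
  classical
  obtain ⟨⟨t, ⟨p₀, hp₀'⟩, h1⟩, h2⟩ := h
  have h1' : ∀ v : a → MonoidAlgebra R G, aug t v = 0 ↔ ∃ w, w ᵥ* D₁ = v := h1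
  have hp₀ : aug t p₀ = 1 := hp₀'
  -- a lift
  have hex : ∀ v : a → MonoidAlgebra R G, ∃ w : b → MonoidAlgebra R G,
      w ᵥ* D₁ = v - aug t v • p₀ := by
    intro v
    refine (h1' _).1 ?_
    rw [aug_sub, aug_ratsmul, hp₀, mul_one, sub_self]
  choose W hW using hex
  -- elements of the kernel of the second map
  have hker : ∀ (z : b × ι → F), blk ρ D₂ *ᵥ z = 0 → ∀ w w' : b → MonoidAlgebra R G,
      w ᵥ* D₁ = w' ᵥ* D₁ → ev ρ z w = ev ρ z w' := by
    intro z hz w w' hww
    have h3 : (w - w') ᵥ* D₁ = 0 := by rw [Matrix.sub_vecMul, hww, sub_self]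
    obtain ⟨u, hu⟩ := (h2 _).1 h3
    have h4 : ev ρ z (w - w') = 0 := by
      rw [← hu, ev_vecMul, hz, ev_zero_left]
    rw [ev_sub, sub_eq_zero] at h4
    exact h4
  -- the crossed homomorphism
  let sg : G → MonoidAlgebra R G := fun g => MonoidAlgebra.single g 1
  have hsg : ∀ g h, sg (g * h) = sg g * sg h := fun g h => by
    simp [sg, MonoidAlgebra.single_mul_single]
  have haug : ∀ g, aug t (sg g • p₀) = 1 := fun g => by
    rw [aug_smul, counit_single_one, hp₀, mul_one]
  have hext : ∀ g, ext ρ (sg g) = ρ g := fun g => by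
    rw [ext_single, one_smul]
  let C : (b × ι → F) → G → ι → F := fun z g => ev ρ z (W (sg g • p₀))
  have hC : ∀ z, blk ρ D₂ *ᵥ z = 0 → ∀ g h, C z (g * h) = C z g + ρ g *ᵥ C z h := by
    intro z hz g h
    have h3 : C z (g * h) = ev ρ z (W (sg g • p₀) + sg g • W (sg h • p₀)) := by
      refine hker z hz _ _ ?_
      rw [Matrix.add_vecMul, Matrix.smul_vecMul, hW, hW, hW, haug, haug, haug, hsg, mul_smul,
        one_smul, smul_sub]
      abel
    rw [h3, ev_add, ev_smul, hext]
  -- the linear map
  let K := LinearMap.ker (blk ρ D₂).mulVecLin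
  have hK : ∀ z : K, blk ρ D₂ *ᵥ (z : b × ι → F) = 0 := fun z => z.2
  let Θ : (K × (ι → F)) →ₗ[F] Z1 ρ :=
    { toFun := fun x => ⟨fun g => C x.1 g + (ρ g *ᵥ x.2 - x.2), by
        intro g h
        simp only [hC _ (hK x.1) g h, map_mul, Matrix.mulVec_add, Matrix.mulVec_sub,
          Matrix.mulVec_mulVec]
        abel⟩
      map_add' := by
        intro x y
        ext g : 2
        simp only [Prod.fst_add, Prod.snd_add, Submodule.coe_add, C, ev_add_left,
          Matrix.mulVec_add, Pi.add_apply]
        abel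
      map_smul' := by
        intro r x
        ext g : 2
        simp only [Prod.smul_fst, Prod.smul_snd, Submodule.coe_smul, C, ev_smul_left,
          Matrix.mulVec_smul, Pi.smul_apply, RingHom.id_apply, smul_add, smul_sub] }
  -- the extension lemma
  have hF : ∀ (z : b × ι → F) (u' : ι → F), blk ρ D₂ *ᵥ z = 0 →
      (∀ g, C z g = ρ g *ᵥ u' - u') →
      ∀ f : a × ι → F, (∀ j, (fun p => f (j, p)) = ev ρ z (W (Pi.single j 1)) + t j • u') →
      blk ρ D₁ *ᵥ f = z ∧ ev ρ f p₀ = u' := by
    intro z u' hz hCz f hf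
    let Fm : (a → MonoidAlgebra R G) → ι → F := fun v => ev ρ z (W v) + aug t v • u'
    have hadd : ∀ v v', Fm (v + v') = Fm v + Fm v' := by
      intro v v'
      have h3 : ev ρ z (W (v + v')) = ev ρ z (W v + W v') := by
        refine hker z hz _ _ ?_
        rw [Matrix.add_vecMul, hW, hW, hW, aug_add, add_smul]
        abel
      simp only [Fm]
      rw [h3, ev_add, aug_add, add_smul]
      abel
    have hsm : ∀ (x : MonoidAlgebra R G) v, Fm (x • v) = ext ρ x *ᵥ Fm v := by
      intro x v
      induction x using MonoidAlgebra.induction_linear with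
      | zero =>
        have h3 : ev ρ z (W ((0 : MonoidAlgebra R G) • v)) =
            ev ρ z (0 : b → MonoidAlgebra R G) := by
          refine hker z hz _ _ ?_
          rw [hW, aug_smul]
          simp
        simp only [Fm]
        rw [h3, ev_zero, aug_smul]
        simp
      | add x y hx hy => rw [add_smul, hadd, hx, hy, map_add, Matrix.add_mulVec]
      | single g q =>
        have e1 : (MonoidAlgebra.single g q : MonoidAlgebra R G) = q • sg g := by
          simp [sg, MonoidAlgebra.smul_single]
        have h3 : ev ρ z (W ((q • sg g) • v)) =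
            ev ρ z ((q • sg g) • W v + (q * aug t v) • W (sg g • p₀)) := by
          refine hker z hz _ _ ?_
          rw [Matrix.add_vecMul, Matrix.smul_vecMul, Matrix.smul_vecMul, hW, hW, hW, haug,
            aug_smul, map_smul, counit_single_one, one_smul, smul_sub, smul_eq_mul, mul_one,
            smul_sub, smul_assoc, smul_assoc, smul_comm (sg g) (aug t v) p₀, mul_smul, mul_smul]
          abel
        simp only [Fm]
        have ec : (Coalgebra.counit (q • sg g) : R) = q := by
          rw [map_smul, counit_single_one, smul_eq_mul, mul_one]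
        have ee : (ext ρ (q • sg g) : Matrix ι ι F) = q • ρ g := by rw [map_smul, hext]
        rw [e1, h3, ev_add, ev_smul, ev_ratsmul, aug_smul, ec, ee]
        have h4 : ev ρ z (W (sg g • p₀)) = ρ g *ᵥ u' - u' := hCz g
        rw [h4, Matrix.mulVec_add, Matrix.mulVec_smul, smul_sub,
          Matrix.smul_mulVec, Matrix.smul_mulVec, smul_smul]
        rw [mul_comm (aug t v) q]
        abel
    have hFm0 : Fm 0 = 0 := by
      have := hadd 0 0
      rw [add_zero] at this
      exact left_eq_add.1 this
    have hev : ∀ v, ev ρ f v = Fm v := by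
      intro v
      have h3 : v = ∑ j, v j • (Pi.single j (1 : MonoidAlgebra R G) : a → MonoidAlgebra R G) := by
        ext1 i
        simp only [Finset.sum_apply, Pi.smul_apply, smul_eq_mul, Pi.single_apply, mul_ite,
          mul_one, mul_zero, Finset.sum_ite_eq, Finset.mem_univ, if_true]
      have h4 : ∀ s : Finset a, Fm (∑ j ∈ s, v j •
          (Pi.single j (1 : MonoidAlgebra R G) : a → MonoidAlgebra R G)) =
          ∑ j ∈ s, ext ρ (v j) *ᵥ (fun p => f (j, p)) := by
        intro s
        induction s using Finset.induction_on with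
        | empty => simpa using hFm0
        | insert j s hj ih =>
          rw [Finset.sum_insert hj, Finset.sum_insert hj, hadd, hsm, ih, hf j]
          congr 2
          simp only [Fm]
          congr 2
          unfold aug
          rw [Finset.sum_eq_single j]
          · simp
          · intro i _ hij
            simp [Pi.single_eq_of_ne hij]
          · simp
      rw [h3, h4, ← h3]
      rfl
    constructor
    · ext ⟨i, p⟩
      have h3 : ev ρ (blk ρ D₁ *ᵥ f) (Pi.single i (1 : MonoidAlgebra R G)) =
          ev ρ z (Pi.single i (1 : MonoidAlgebra R G)) := by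
        rw [← ev_vecMul, hev]
        have h5 : aug t ((Pi.single i (1 : MonoidAlgebra R G) : b → MonoidAlgebra R G) ᵥ* D₁) = 0 :=
          (h1' _).2 ⟨_, rfl⟩
        simp only [Fm]
        rw [h5, zero_smul, add_zero]
        refine hker z hz _ _ ?_
        rw [hW, h5, zero_smul, sub_zero]
      rw [ev_single, ev_single] at h3
      exact congrFun h3 p
    · rw [hev]
      simp only [Fm]
      have h3 : ev ρ z (W p₀) = ev ρ z (0 : b → MonoidAlgebra R G) := by
        refine hker z hz _ _ ?_
        rw [hW, hp₀, one_smul, sub_self, Matrix.zero_vecMul]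
      rw [h3, ev_zero, zero_add, hp₀, one_smul]
  -- the second linear map
  let Λ : (K × (ι → F)) →ₗ[F] (a × ι → F) :=
    { toFun := fun x jp => (ev ρ (x.1 : b × ι → F) (W (Pi.single jp.1 1)) - t jp.1 • x.2) jp.2
      map_add' := by
        intro x y
        ext ⟨j, p⟩
        simp only [Prod.fst_add, Prod.snd_add, Submodule.coe_add, ev_add_left, Pi.add_apply,
          Pi.sub_apply, Pi.smul_apply, smul_add]
        abel
      map_smul' := by
        intro r x
        ext ⟨j, p⟩
        simp only [Prod.smul_fst, Prod.smul_snd, Submodule.coe_smul, ev_smul_left, Pi.smul_apply,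
          Pi.sub_apply, RingHom.id_apply, smul_sub, smul_comm r (t j)] }
  have hinj : ∀ x ∈ LinearMap.ker Θ, Λ x = 0 → x = 0 := by
    intro x hx hΛ
    have hx' : Θ x = 0 := hx
    have h3 : ∀ g, C x.1 g = ρ g *ᵥ (-x.2) - (-x.2) := by
      intro g
      have h4 : C x.1 g + (ρ g *ᵥ x.2 - x.2) = 0 := by
        have := congrArg (fun y : Z1 ρ => (y : G → ι → F) g) hx'
        exact this
      rw [Matrix.mulVec_neg, eq_neg_of_add_eq_zero_left h4]
      abel
    obtain ⟨h5, h6⟩ := hF x.1 (-x.2) (hK x.1) h3 (Λ x) (by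
      intro j
      ext p
      show (ev ρ (x.1 : b × ι → F) (W (Pi.single j 1)) - t j • x.2) p = _
      rw [smul_neg, sub_eq_add_neg])
    rw [hΛ, Matrix.mulVec_zero] at h5
    rw [hΛ, ev_zero_left] at h6
    ext1
    · exact Subtype.ext h5.symm
    · exact neg_eq_zero.1 h6.symm
  -- count dimensions
  have d1 := LinearMap.finrank_range_add_finrank_ker Θ
  have d2 : Module.finrank F (LinearMap.range Θ) ≤ Module.finrank F (Z1 ρ) :=
    Submodule.finrank_le _
  have d3 : Module.finrank F (LinearMap.ker Θ) ≤ Module.finrank F (a × ι → F) := by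
    refine LinearMap.finrank_le_finrank_of_injective (f := Λ.comp (LinearMap.ker Θ).subtype) ?_
    refine (injective_iff_map_eq_zero _).2 ?_
    intro x hx
    exact Subtype.ext (hinj x x.2 hx)
  have d4 := LinearMap.finrank_range_add_finrank_ker (blk ρ D₂).mulVecLin
  have d5 : Module.finrank F (K × (ι → F)) = Module.finrank F K + Fintype.card ι := by
    rw [Module.finrank_prod, Module.finrank_pi]
  have d6 : Module.finrank F (a × ι → F) = Fintype.card a * Fintype.card ι := by
    rw [Module.finrank_pi, Fintype.card_prod]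
  have d7 : Module.finrank F (b × ι → F) = Fintype.card b * Fintype.card ι := by
    rw [Module.finrank_pi, Fintype.card_prod]
  have d8 : (blk ρ D₂).rank = Module.finrank F (LinearMap.range (blk ρ D₂).mulVecLin) := rfl
  have d9 : Module.finrank F K = Module.finrank F (LinearMap.ker (blk ρ D₂).mulVecLin) := rfl
  omega

end

end Pool.Agent.Helper35.SH
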